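import Pool.Agent.Helper40.GO.DefsD

/-!
# Project GO (MP_6af536_nt), packet BLO: the blow-down of the growth function along an ultrafilter
-/

set_option autoImplicit false

namespace Pool.Agent.Helper53.GO

open Filter Topology Pool.Agent.Helper40.GO

section lips

variable {k : ℕ} {U : (Fin (k + 1) → ℕ) → ℝ} {C : ℝ} {n₀ : ℕ}

/-- The Lipschitz condition. -/
def Lip (U : (Fin (k + 1) → ℕ) → ℝ) (C : ℝ) (n₀ : ℕ) : Prop :=
  ∀ i J, n₀ ≤ J i → U (Function.update J i (J i + 1)) ≤ C * U J ∧
    U J ≤ C * U (Function.update J i (J i + 1))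

theorem slot_aux (hU : ∀ J, 0 < U J) (hC : 1 ≤ C) (h : Lip U C n₀) (i : Fin (k + 1))
    (J : Fin (k + 1) → ℕ) (a : ℕ) (ha : n₀ ≤ a) (d : ℕ) :
    |Real.log (U (Function.update J i (a + d))) - Real.log (U (Function.update J i a))| ≤
      Real.log C * d := by
  have hC0 : 0 < C := by linarith
  induction d with
  | zero => simp
  | succ d ih =>
    obtain ⟨h1, h2⟩ := h i (Function.update J i (a + d)) (by rw [Function.update_self]; omega)
    rw [Function.update_self, Function.update_idem, add_assoc] at h1 h2
    have g1 := Real.log_le_log (hU _) h1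
    have g2 := Real.log_le_log (hU _) h2
    rw [Real.log_mul hC0.ne' (hU _).ne'] at g1 g2
    rw [abs_le] at ih ⊢
    push_cast
    constructor
    · linarith [ih.1, ih.2]
    · linarith [ih.1, ih.2]

theorem slot (hU : ∀ J, 0 < U J) (hC : 1 ≤ C) (h : Lip U C n₀) (i : Fin (k + 1))
    (J : Fin (k + 1) → ℕ) {a b : ℕ} (ha : n₀ ≤ a) (hb : n₀ ≤ b) :
    |Real.log (U (Function.update J i a)) - Real.log (U (Function.update J i b))| ≤
      Real.log C * |(a : ℝ) - b| := by
  rcases le_total a b with hab | hab
  · obtain ⟨d, rfl⟩ := Nat.exists_eq_add_of_le hab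
    rw [abs_sub_comm]
    refine (slot_aux hU hC h i J a ha d).trans (le_of_eq ?_)
    push_cast
    rw [show (a : ℝ) - (a + d) = -d by ring, abs_neg, abs_of_nonneg (Nat.cast_nonneg d)]
  · obtain ⟨d, rfl⟩ := Nat.exists_eq_add_of_le hab
    refine (slot_aux hU hC h i J b hb d).trans (le_of_eq ?_)
    push_cast
    rw [show (b : ℝ) + d - b = d by ring, abs_of_nonneg (Nat.cast_nonneg d)]

theorem multi (hU : ∀ J, 0 < U J) (hC : 1 ≤ C) (h : Lip U C n₀) {J J' : Fin (k + 1) → ℕ}
    (hJ : ∀ i, n₀ ≤ J i) (hJ' : ∀ i, n₀ ≤ J' i) :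
    |Real.log (U J) - Real.log (U J')| ≤ Real.log C * ∑ i, |(J i : ℝ) - J' i| := by
  have key : ∀ s : Finset (Fin (k + 1)), |Real.log (U (s.piecewise J J')) - Real.log (U J')| ≤
      Real.log C * ∑ i ∈ s, |(J i : ℝ) - J' i| := by
    intro s
    induction s using Finset.induction_on with
    | empty => simp
    | insert a s ha ih =>
      rw [Finset.sum_insert ha, Finset.piecewise_insert]
      have h1 : s.piecewise J J' = Function.update (s.piecewise J J') a (J' a) := by
        rw [eq_comm, Function.update_eq_self_iff, Finset.piecewise_eq_of_notMem _ _ _ ha]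
      have h2 := slot hU hC h a (s.piecewise J J') (hJ a) (hJ' a)
      rw [← h1] at h2
      have h3 := abs_sub_le (Real.log (U (Function.update (s.piecewise J J') a (J a))))
        (Real.log (U (s.piecewise J J'))) (Real.log (U J'))
      rw [mul_add]
      linarith
  have h1 := key Finset.univ
  rwa [Finset.piecewise_univ] at h1

end lips

/-- The integral points. -/
noncomputable def fl {n : ℕ} (s : Fin n → ℝ) (N : ℕ) : Fin n → ℕ := fun i ↦ ⌊s i * N⌋₊

theorem fl_update {n : ℕ} (s : Fin n → ℝ) (N : ℕ) (i : Fin n) (b : ℝ) :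
    fl (Function.update s i b) N = Function.update (fl s N) i ⌊b * N⌋₊ := by
  funext j
  unfold fl
  by_cases h : j = i
  · subst h
    rw [Function.update_self, Function.update_self]
  · rw [Function.update_of_ne h, Function.update_of_ne h]

theorem floor_sub {a b : ℝ} (ha : 0 ≤ a) (hb : 0 ≤ b) :
    |(⌊a⌋₊ : ℝ) - ⌊b⌋₊| ≤ |a - b| + 1 := by
  have h1 := Nat.floor_le ha
  have h2 := Nat.floor_le hb
  have h3 := Nat.lt_floor_add_one a
  have h4 := Nat.lt_floor_add_one b
  have h5 := le_abs_self (a - b)
  have h6 := neg_abs_le (a - b)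
  rw [abs_le]
  constructor <;> linarith

theorem ev_floor {n : ℕ} {s : Fin n → ℝ} (hs : ∀ i, 0 < s i) (n₀ : ℕ) :
    ∀ᶠ N : ℕ in atTop, ∀ i, n₀ ≤ fl s N i := by
  rw [eventually_all]
  intro i
  have h1 : Tendsto (fun N : ℕ ↦ s i * (N : ℝ)) atTop atTop :=
    tendsto_natCast_atTop_atTop.const_mul_atTop (hs i)
  filter_upwards [h1.eventually_ge_atTop (n₀ : ℝ)] with N hN
  exact Nat.le_floor hN

theorem inv_lim (A : ℝ) : Tendsto (fun N : ℕ ↦ A / (N : ℝ)) atTop (𝓝 0) :=
  tendsto_const_div_atTop_nhds_zero_nat A

theorem blo (hjmp : S_JMP) : S_BLO := by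
  intro k U κ Λ hd 𝒰 h𝒰
  classical
  have hU : ∀ J, 0 < U J := fun J ↦ (hd.κpos 0 J).trans_le (hd.κle 0 J)
  obtain ⟨C, n₀, hC, hlip⟩ := hd.lip
  have hlip' : Lip U C n₀ := hlip
  set c := Real.log C with hc
  have hc0 : 0 ≤ c := Real.log_nonneg hC
  set u : (Fin (k + 1) → ℝ) → ℕ → ℝ := fun s N ↦ Real.log (U (fl s N)) / N with hu
  set A := |Real.log (U fun _ ↦ n₀)| with hA
  have hA0 : 0 ≤ A := abs_nonneg _
  -- the basic bound
  have hbd : ∀ s : Fin (k + 1) → ℝ, (∀ i, 0 < s i) → ∀ᶠ N : ℕ in atTop,
      |u s N| ≤ A / N + c * ∑ i, s i := by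
    intro s hs
    filter_upwards [ev_floor hs n₀, eventually_gt_atTop 0] with N h1 h2
    have hN : (0 : ℝ) < N := by exact_mod_cast h2
    have h3 := multi hU hC hlip' h1 (J' := fun _ ↦ n₀) (fun _ ↦ le_rfl)
    have h4 : ∑ i, |((fl s N i : ℕ) : ℝ) - (n₀ : ℝ)| ≤ ∑ i, s i * N := by
      refine Finset.sum_le_sum fun i _ ↦ ?_
      have h5 : (n₀ : ℝ) ≤ (fl s N i : ℕ) := by exact_mod_cast h1 i
      have h6 : ((fl s N i : ℕ) : ℝ) ≤ s i * N := Nat.floor_le (by have := hs i; positivity)
      have h7 : (0 : ℝ) ≤ n₀ := Nat.cast_nonneg _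
      rw [abs_of_nonneg (by linarith)]
      linarith
    have h8 : |Real.log (U (fl s N))| ≤ A + c * ∑ i, s i * N := by
      have h9 := abs_sub_abs_le_abs_sub (Real.log (U (fl s N))) (Real.log (U fun _ ↦ n₀))
      have h10 := mul_le_mul_of_nonneg_left h4 hc0
      linarith
    rw [hu]
    beta_reduce
    rw [abs_div, abs_of_pos hN, div_le_iff₀ hN, add_mul, div_mul_cancel₀ _ hN.ne', mul_assoc,
      Finset.sum_mul]
    exact h8
  have hlp : ∀ s s' : Fin (k + 1) → ℝ, (∀ i, 0 < s i) → (∀ i, 0 < s' i) → ∀ᶠ N : ℕ in atTop,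
      |u s N - u s' N| ≤ c * ∑ i, |s i - s' i| + c * (k + 1) / N := by
    intro s s' hs hs'
    filter_upwards [ev_floor hs n₀, ev_floor hs' n₀, eventually_gt_atTop 0] with N h1 h1' h2
    have hN : (0 : ℝ) < N := by exact_mod_cast h2
    have h3 := multi hU hC hlip' h1 h1'
    have h4 : ∑ i, |((fl s N i : ℕ) : ℝ) - (fl s' N i : ℕ)| ≤
        (∑ i, |s i - s' i|) * N + (k + 1) := by
      calc ∑ i, |((fl s N i : ℕ) : ℝ) - (fl s' N i : ℕ)|
          ≤ ∑ i : Fin (k + 1), (|s i - s' i| * N + 1) := by
            refine Finset.sum_le_sum fun i _ ↦ ?_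
            have h5 := floor_sub (a := s i * N) (b := s' i * N) (by have := hs i; positivity)
              (by have := hs' i; positivity)
            rw [← sub_mul, abs_mul, abs_of_pos hN] at h5
            exact h5
        _ = _ := by
            rw [Finset.sum_add_distrib, ← Finset.sum_mul]
            simp
    have h5 := mul_le_mul_of_nonneg_left h4 hc0
    rw [hu]
    beta_reduce
    rw [← sub_div, abs_div, abs_of_pos hN, div_le_iff₀ hN, add_mul, div_mul_cancel₀ _ hN.ne']
    linarith
  -- the limits exist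
  have hex : ∀ s : Fin (k + 1) → ℝ, (∀ i, 0 < s i) → ∃ x, Tendsto (u s) 𝒰 (𝓝 x) := by
    intro s hs
    have h1 : ∀ᶠ N : ℕ in atTop, u s N ∈ Set.Icc (-(A + c * ∑ i, s i)) (A + c * ∑ i, s i) := by
      filter_upwards [hbd s hs, eventually_ge_atTop 1] with N h2 h3
      have hN : (1 : ℝ) ≤ N := by exact_mod_cast h3
      have h4 : A / N ≤ A := div_le_self hA0 hN
      rw [Set.mem_Icc, ← abs_le]
      linarith
    have h2 := h1.filter_mono h𝒰
    obtain ⟨x, -, hx⟩ := (isCompact_Icc (a := -(A + c * ∑ i, s i))
      (b := A + c * ∑ i, s i)).ultrafilter_le_nhds (Ultrafilter.map (u s) 𝒰)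
        (le_principal_iff.2 h2)
    exact ⟨x, hx⟩
  choose! F hF using hex
  -- the gap
  have hgap : ∀ σ₁ σ₂ : ℝ, Gap (insert 0 Λ) σ₁ σ₂ → ∀ (i : Fin (k + 1)) (s : Fin (k + 1) → ℝ)
      (b d : ℝ), (∀ i, 0 < s i) → s i < b → b < d →
      σ₁ * (b - s i) < F (Function.update s i b) - F s →
      σ₂ * (d - b) ≤ F (Function.update s i d) - F (Function.update s i b) := by
    intro σ₁ σ₂ hG i s b d hs hsb hbd' hlt
    obtain ⟨hσ, hM⟩ := hG
    have h0 : 0 ≤ σ₁ ∨ σ₂ ≤ 0 := hM 0 (Finset.mem_insert_self 0 Λ)
    have hsi := hs i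
    have hb0 : 0 < b := hsi.trans hsb
    have hd0 : 0 < d := hb0.trans hbd'
    have hpb : ∀ j, 0 < Function.update s i b j := by
      intro j
      by_cases h : j = i
      · subst h
        rw [Function.update_self]
        exact hb0
      · rw [Function.update_of_ne h]
        exact hs j
    have hpd : ∀ j, 0 < Function.update s i d j := by
      intro j
      by_cases h : j = i
      · subst h
        rw [Function.update_self]
        exact hd0
      · rw [Function.update_of_ne h]
        exact hs j
    have tb := hF _ hpb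
    have td := hF _ hpd
    have ts := hF _ hs
    set δ := F (Function.update s i b) - F s - σ₁ * (b - s i) with hδ
    have hδ0 : 0 < δ := by linarith
    -- for all small `ε`
    have main : ∀ ε : ℝ, 0 < ε → ε * (b - s i) ≤ δ / 4 → σ₁ + ε ≤ σ₂ - ε →
        (σ₂ - ε) * (d - b) ≤ F (Function.update s i d) - F (Function.update s i b) := by
      intro ε hε hε1 hε2
      obtain ⟨m, hm, C', n₁, hC', hj⟩ := hd.jump σ₁ σ₂ hσ
        (fun l hl ↦ hM l (Finset.mem_insert_of_mem hl)) ε hε
      have hm0 : (0 : ℝ) < m := by exact_mod_cast hm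
      set E1 := |σ₁ + ε| * (m + 1) + Real.log C' + c * m with hE1
      set E2 := |σ₂ - ε| * (2 * (m + 1)) + Real.log C' + 2 * (c * m) with hE2
      have hlim1 : Tendsto (fun N : ℕ ↦ u (Function.update s i b) N - u s N) 𝒰
          (𝓝 (F (Function.update s i b) - F s)) := tb.sub ts
      have hlim2 : Tendsto (fun N : ℕ ↦ u (Function.update s i d) N -
          u (Function.update s i b) N) 𝒰
          (𝓝 (F (Function.update s i d) - F (Function.update s i b))) := td.sub tb
      have hev1 : ∀ᶠ N : ℕ in 𝒰, σ₁ * (b - s i) + 3 * δ / 4 <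
          u (Function.update s i b) N - u s N := hlim1.eventually_const_lt (by linarith)
      have hev2 : ∀ᶠ N : ℕ in atTop, E1 / (N : ℝ) < δ / 2 :=
        (inv_lim E1).eventually_lt_const (by linarith)
      have hfin : ∀ᶠ N : ℕ in 𝒰, (σ₂ - ε) * (d - b) - E2 / N ≤
          u (Function.update s i d) N - u (Function.update s i b) N := by
        filter_upwards [hev1, (hev2.and ((ev_floor hs (max n₀ n₁)).and
          (eventually_gt_atTop 0))).filter_mono h𝒰] with N h1 h2
        obtain ⟨h2, h3, h4⟩ := h2
        have hN : (0 : ℝ) < N := by exact_mod_cast h4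
        set n := fl s N i with hn
        set β := ⌊b * N⌋₊ with hβ
        set γ := ⌊d * N⌋₊ with hγ
        have hn0 : n₀ ≤ n := (le_max_left _ _).trans (h3 i)
        have hn1 : n₁ ≤ n := (le_max_right _ _).trans (h3 i)
        have hnβ : n ≤ β := Nat.floor_le_floor (by gcongr)
        have hβγ : β ≤ γ := Nat.floor_le_floor (by gcongr)
        set J := (β - n) / m with hJ
        set J' := (γ - n) / m with hJ'
        have hJJ : J ≤ J' := Nat.div_le_div_right (by omega)
        have hmod1 := Nat.div_add_mod (β - n) m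
        have hmod2 := Nat.mod_lt (β - n) hm
        have hmod3 := Nat.div_add_mod (γ - n) m
        have hmod4 := Nat.mod_lt (γ - n) hm
        rw [← hJ] at hmod1
        rw [← hJ'] at hmod3
        rw [mul_comm] at hmod1 hmod3
        -- the sequence
        set W : ℕ → ℝ := fun x ↦ U (Function.update (fl s N) i x) with hW
        have hWs : Real.log (W n) = N * u s N := by
          rw [hu, hW, hn]
          beta_reduce
          rw [Function.update_eq_self, mul_div_cancel₀ _ hN.ne']
        have hWb : Real.log (W β) = N * u (Function.update s i b) N := by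
          rw [hu, hW, hβ]
          beta_reduce
          rw [fl_update, mul_div_cancel₀ _ hN.ne']
        have hWd : Real.log (W γ) = N * u (Function.update s i d) N := by
          rw [hu, hW, hγ]
          beta_reduce
          rw [fl_update, mul_div_cancel₀ _ hN.ne']
        have hs1 : |Real.log (W β) - Real.log (W (n + J * m))| ≤ c * m := by
          refine (slot hU hC hlip' i (fl s N) (a := β) (b := n + J * m) (by omega)
            (by omega)).trans ?_
          refine mul_le_mul_of_nonneg_left ?_ hc0
          have e1 : β = n + J * m + (β - n) % m := by omega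
          have e2 : (β : ℝ) - ((n + J * m : ℕ) : ℝ) = (((β - n) % m : ℕ) : ℝ) := by
            have e3 : (β : ℝ) = ((n + J * m + (β - n) % m : ℕ) : ℝ) := by exact_mod_cast e1
            rw [e3]
            push_cast
            ring
          rw [e2, abs_of_nonneg (Nat.cast_nonneg _)]
          exact_mod_cast hmod2.le
        have hs2 : |Real.log (W γ) - Real.log (W (n + J' * m))| ≤ c * m := by
          refine (slot hU hC hlip' i (fl s N) (a := γ) (b := n + J' * m) (by omega)
            (by omega)).trans ?_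
          refine mul_le_mul_of_nonneg_left ?_ hc0
          have e1 : γ = n + J' * m + (γ - n) % m := by omega
          have e2 : (γ : ℝ) - ((n + J' * m : ℕ) : ℝ) = (((γ - n) % m : ℕ) : ℝ) := by
            have e3 : (γ : ℝ) = ((n + J' * m + (γ - n) % m : ℕ) : ℝ) := by exact_mod_cast e1
            rw [e3]
            push_cast
            ring
          rw [e2, abs_of_nonneg (Nat.cast_nonneg _)]
          exact_mod_cast hmod4.le
        -- the real numbers
        have f1 : (n : ℝ) ≤ s i * N := Nat.floor_le (by positivity)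
        have f2 : s i * N < n + 1 := Nat.lt_floor_add_one _
        have f3 : (β : ℝ) ≤ b * N := Nat.floor_le (by positivity)
        have f4 : b * N < β + 1 := Nat.lt_floor_add_one _
        have f5 : (γ : ℝ) ≤ d * N := Nat.floor_le (by positivity)
        have f6 : d * N < γ + 1 := Nat.lt_floor_add_one _
        have g1 : (J : ℝ) * m + n ≤ β := by
          have : J * m + n ≤ β := by omega
          exact_mod_cast this
        have g2 : (β : ℝ) ≤ J * m + n + m := by
          have : β ≤ J * m + n + m := by omega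
          exact_mod_cast this
        have g3 : (J' : ℝ) * m + n ≤ γ := by
          have : J' * m + n ≤ γ := by omega
          exact_mod_cast this
        have g4 : (γ : ℝ) ≤ J' * m + n + m := by
          have : γ ≤ J' * m + n + m := by omega
          exact_mod_cast this
        have a1 : |(J : ℝ) * m - (b - s i) * N| ≤ m + 1 := by
          rw [abs_le]
          constructor <;> linarith
        have a2 : |((J' : ℝ) - J) * m - (d - b) * N| ≤ 2 * (m + 1) := by
          rw [abs_le]
          constructor <;> linarith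
        -- the premise of the jump lemma
        have p1 : (σ₁ + ε) * (J * m) ≤ (σ₁ + ε) * ((b - s i) * N) + |σ₁ + ε| * (m + 1) := by
          have q1 : (σ₁ + ε) * (J * m - (b - s i) * N) ≤ |σ₁ + ε| * (m + 1) := by
            refine (le_abs_self _).trans ?_
            rw [abs_mul]
            exact mul_le_mul_of_nonneg_left a1 (abs_nonneg _)
          linarith
        have p2 : E1 < δ / 2 * N := by
          rwa [div_lt_iff₀ hN] at h2
        have p3 : (σ₁ * (b - s i) + 3 * δ / 4) * N < Real.log (W β) - Real.log (W n) := by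
          rw [hWb, hWs]
          have q1 := mul_lt_mul_of_pos_right h1 hN
          linarith
        have p4 : ε * (b - s i) * N ≤ δ / 4 * N := mul_le_mul_of_nonneg_right hε1 hN.le
        have prem : (σ₁ + ε) * m * (J : ℝ) + Real.log C' <
            Real.log (W (n + J * m)) - Real.log (W n) := by
          have q2 := abs_le.1 hs1
          have q3 : (σ₁ + ε) * m * (J : ℝ) = (σ₁ + ε) * (J * m) := by ring
          rw [q3]
          linarith [q2.1, q2.2, p1, p2, p3, p4, hE1]
        have concl := hjmp W (κ i (fl s N)) C' ((σ₁ + ε) * m) ((σ₂ - ε) * m) n₁ m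
          (hd.κpos i _) hC' (mul_le_mul_of_nonneg_right hε2 hm0.le)
          (by
            rcases h0 with h0 | h0
            · left
              have : 0 ≤ σ₁ + ε := by linarith
              positivity
            · right
              exact mul_nonpos_of_nonpos_of_nonneg (by linarith) hm0.le)
          (by
            intro x
            rw [hW]
            beta_reduce
            rw [← hd.κupd i (fl s N) x]
            exact hd.κle i _)
          (by
            intro x hx k1 k2
            have k3 := hj i (Function.update (fl s N) i x) (by rw [Function.update_self]; exact hx)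
            rw [Function.update_self, Function.update_idem, Function.update_idem,
              hd.κupd] at k3
            exact k3 k1 k2)
          n hn1 J prem J' hJJ
        -- the conclusion
        have r1 := abs_le.1 hs1
        have r2 := abs_le.1 hs2
        have r3 : (σ₂ - ε) * ((d - b) * N) - |σ₂ - ε| * (2 * (m + 1)) ≤
            (σ₂ - ε) * m * ((J' : ℝ) - J) := by
          have q1 : -(|σ₂ - ε| * (2 * (m + 1))) ≤
              (σ₂ - ε) * (((J' : ℝ) - J) * m - (d - b) * N) := by
            refine le_trans ?_ (neg_abs_le _)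
            rw [abs_mul]
            exact neg_le_neg (mul_le_mul_of_nonneg_left a2 (abs_nonneg _))
          linarith
        have r4 : (σ₂ - ε) * ((d - b) * N) - E2 ≤ Real.log (W γ) - Real.log (W β) := by
          linarith [r1.1, r1.2, r2.1, r2.2, r3, concl, hE2]
        rw [hWd, hWb, ← mul_sub] at r4
        have r5 : ((σ₂ - ε) * (d - b) - E2 / N) * N = (σ₂ - ε) * ((d - b) * N) - E2 := by
          rw [sub_mul, div_mul_cancel₀ _ hN.ne']
          ring
        have r6 : ((σ₂ - ε) * (d - b) - E2 / N) * N ≤
            (u (Function.update s i d) N - u (Function.update s i b) N) * N := by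
          rw [r5]
          linarith
        exact le_of_mul_le_mul_right r6 hN
      have hlim3 : Tendsto (fun N : ℕ ↦ (σ₂ - ε) * (d - b) - E2 / N) 𝒰
          (𝓝 ((σ₂ - ε) * (d - b) - 0)) :=
        tendsto_const_nhds.sub ((inv_lim E2).mono_left h𝒰)
      rw [sub_zero] at hlim3
      exact le_of_tendsto_of_tendsto hlim3 hlim2 hfin
    -- let `ε` tend to zero
    refine le_of_forall_pos_le_add fun η hη ↦ ?_
    have hbs : 0 < b - s i := by linarith
    have hdb : 0 < d - b := by linarith
    set ε := min (min (δ / 4 / (b - s i)) ((σ₂ - σ₁) / 2)) (η / (d - b)) with hε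
    have hε0 : 0 < ε := by
      refine lt_min (lt_min (by positivity) (by linarith)) (by positivity)
    have e1 : ε ≤ δ / 4 / (b - s i) := (min_le_left _ _).trans (min_le_left _ _)
    have e2 : ε ≤ (σ₂ - σ₁) / 2 := (min_le_left _ _).trans (min_le_right _ _)
    have e3 : ε ≤ η / (d - b) := min_le_right _ _
    rw [le_div_iff₀ hbs] at e1
    rw [le_div_iff₀ hdb] at e3
    have h5 := main ε hε0 e1 (by linarith)
    linarith
  refine ⟨F, c, ⟨hc0, ?_, ?_, hgap⟩, fun s hs ↦ hF s hs⟩
  · intro s s' hs hs'
    have h1 : Tendsto (fun N : ℕ ↦ |u s N - u s' N|) 𝒰 (𝓝 |F s - F s'|) :=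
      ((hF s hs).sub (hF s' hs')).abs
    have h2 : Tendsto (fun N : ℕ ↦ c * ∑ i, |s i - s' i| + c * (k + 1) / N) 𝒰
        (𝓝 (c * ∑ i, |s i - s' i| + 0)) :=
      tendsto_const_nhds.add ((inv_lim (c * (k + 1))).mono_left h𝒰)
    rw [add_zero] at h2
    exact le_of_tendsto_of_tendsto h1 h2 ((hlp s s' hs hs').filter_mono h𝒰)
  · intro s hs
    have h1 : Tendsto (fun N : ℕ ↦ |u s N|) 𝒰 (𝓝 |F s|) := (hF s hs).abs
    have h2 : Tendsto (fun N : ℕ ↦ A / N + c * ∑ i, s i) 𝒰 (𝓝 (0 + c * ∑ i, s i)) :=
      ((inv_lim A).mono_left h𝒰).add tendsto_const_nhds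
    rw [zero_add] at h2
    exact le_of_tendsto_of_tendsto h1 h2 ((hbd s hs).filter_mono h𝒰)

end Pool.Agent.Helper53.GO
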